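import Pool.Agent.Q223.Toric.Step

namespace Pool.Agent.Q223.Toric

open Polynomial

/-- Catalan numbers -/
noncomputable def cat (m : ℕ) : ℝ := ((2 * m).choose m : ℝ) / (m + 1)

/-- toric `g`-contribution polynomial -/
noncomputable def g (n j : ℕ) : ℝ[X] :=
  ∑ k ∈ Finset.range (min (n / 2) (n - j) + 1),
    C (cat (n - k - j) * ((n - k).choose k : ℝ)) * (X - 1) ^ k

theorem cat_succ (m : ℕ) : cat (m + 1) * (m + 2) = cat m * (2 * (2 * m + 1)) := by
  unfold cat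
  have h := Nat.succ_mul_centralBinom_succ m
  unfold Nat.centralBinom at h
  have h' : ((m : ℝ) + 1) * ((2 * (m + 1)).choose (m + 1) : ℝ) =
      2 * (2 * m + 1) * ((2 * m).choose m : ℝ) := by exact_mod_cast h
  have h1 : ((m : ℝ) + 1) ≠ 0 := by positivity
  have h2 : ((m : ℝ) + 1 + 1) ≠ 0 := by positivity
  push_cast
  field_simp
  linear_combination (m + 1 + 1 : ℝ) * h'

theorem cat_pos (m : ℕ) : 0 < cat m := by
  unfold cat
  have : 0 < (2 * m).choose m := Nat.choose_pos (by omega)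
  positivity

theorem choose_rec (t s : ℕ) (hs : 1 ≤ s) (hst : s ≤ t + 1) :
    ((t + 1).choose (s - 1) : ℝ) * ((t : ℝ) - s + 2) * ((t : ℝ) - s + 1) =
      (t.choose s : ℝ) * (t + 1) * s := by
  obtain ⟨r, rfl⟩ : ∃ r, s = r + 1 := ⟨s - 1, by omega⟩
  simp only [Nat.add_sub_cancel]
  have h2 := Nat.choose_mul_succ_eq t r
  -- choose t r * (t+1) = choose (t+1) r * (t+1-r)
  have h3 := Nat.choose_succ_right_eq t r
  -- choose t (r+1) * (r+1) = choose t r * (t - r)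
  have hr : r ≤ t := by omega
  have h2' : (t.choose r : ℝ) * ((t : ℝ) + 1) = ((t + 1).choose r : ℝ) * ((t : ℝ) + 1 - r) := by
    have : ((t.choose r * (t + 1) : ℕ) : ℝ) = (((t + 1).choose r * (t + 1 - r) : ℕ) : ℝ) := by
      rw [h2]
    rw [Nat.cast_mul, Nat.cast_mul, Nat.cast_sub (by omega)] at this
    push_cast at this
    exact this
  have h3' : (t.choose (r + 1) : ℝ) * ((r : ℝ) + 1) = (t.choose r : ℝ) * ((t : ℝ) - r) := by
    have : ((t.choose (r + 1) * (r + 1) : ℕ) : ℝ) = ((t.choose r * (t - r) : ℕ) : ℝ) := by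
      rw [h3]
    rw [Nat.cast_mul, Nat.cast_mul, Nat.cast_sub hr] at this
    push_cast at this
    exact this
  push_cast
  linear_combination (-(t : ℝ) + r) * h2' - (t + 1 : ℝ) * h3'

/-- reversed coefficients -/
noncomputable def acoef (m R j k : ℕ) : ℝ := cat (R + k - j) * ((R + k).choose (m - k) : ℝ)

theorem acoef_succ (m R j k : ℕ) (hR : R = m ∨ R = m + 1) (hj : j ≤ m) (hk : k < m) :
    acoef m R j (k + 1) * ((R : ℝ) + k - j + 2) * (4 * (k + 1) * ((R : ℝ) + k - m + 1 / 2)) =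
      acoef m R j k * (4 * ((R : ℝ) + k - j + 1 / 2) * ((R : ℝ) + k + 1) * ((m : ℝ) - k)) := by
  unfold acoef
  have h1 := cat_succ (R + k - j)
  have h2 := choose_rec (R + k) (m - k) (by omega) (by omega)
  have e1 : R + (k + 1) - j = R + k - j + 1 := by omega
  have e2 : m - (k + 1) = m - k - 1 := by omega
  have e3 : ((R + k - j : ℕ) : ℝ) = (R : ℝ) + k - j := by
    rw [Nat.cast_sub (by omega)]; push_cast; ring
  have e4 : ((m - k : ℕ) : ℝ) = (m : ℝ) - k := by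
    rw [Nat.cast_sub (by omega)]
  rw [e1, e2]
  rw [e3] at h1
  rw [e4] at h2
  push_cast at h2
  have e5 : R + (k + 1) = R + k + 1 := by ring
  rw [e5]
  have h6 : (4 * ((k : ℝ) + 1) * ((R : ℝ) + k - m + 1 / 2)) =
      ((R : ℝ) + k - (m - k) + 2) * ((R : ℝ) + k - (m - k) + 1) := by
    rcases hR with h | h
    · subst h; ring
    · subst h; push_cast; ring
  rw [h6]
  linear_combination ((R + k + 1).choose (m - k - 1) : ℝ) *
    (((R : ℝ) + k - (m - k) + 2) * ((R : ℝ) + k - (m - k) + 1)) * h1 +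
    cat (R + k - j) * (2 * (2 * ((R : ℝ) + k - j) + 1)) * h2

theorem prod_shift (T : ℝ) (a b : ℕ) (hab : a ≤ b) :
    (∏ i ∈ Finset.Ico a b, (T + 1 - i)) * (T + 1 - b) =
      (T + 1 - a) * ∏ i ∈ Finset.Ico a b, (T - i) := by
  induction b, hab using Nat.le_induction with
  | base => simp
  | succ b hab ih =>
    rw [Finset.prod_Ico_succ_top hab, Finset.prod_Ico_succ_top hab, ih]
    push_cast
    ring

/-- the multiplier -/
noncomputable def w (m R j k : ℕ) : ℝ :=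
  (if j = 0 then ((R : ℝ) + 1 + k)⁻¹ else ∏ i ∈ Finset.Ico 0 (j - 1), (((R : ℝ) - i) + k)) *
    ∏ i ∈ Finset.Ico j m, (((R : ℝ) - i - 1 / 2) + k)

theorem w_pos (m R j k : ℕ) (hR : m ≤ R) (hj : j ≤ m) : 0 < w m R j k := by
  unfold w
  have h2 : 0 < ∏ i ∈ Finset.Ico j m, (((R : ℝ) - i - 1 / 2) + k) := by
    apply Finset.prod_pos
    intro i hi
    rw [Finset.mem_Ico] at hi
    have : (i : ℝ) + 1 ≤ R := by exact_mod_cast (by omega : i + 1 ≤ R)
    have : (0 : ℝ) ≤ k := Nat.cast_nonneg k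
    linarith
  apply mul_pos _ h2
  split_ifs with h
  · positivity
  · apply Finset.prod_pos
    intro i hi
    rw [Finset.mem_Ico] at hi
    have : (i : ℝ) + 1 ≤ R := by exact_mod_cast (by omega : i + 1 ≤ R)
    have : (0 : ℝ) ≤ k := Nat.cast_nonneg k
    linarith

theorem w_succ (m R j k : ℕ) (hj : j ≤ m) :
    w m R j (k + 1) * ((R : ℝ) + k - j + 2) * ((R : ℝ) + k - m + 1 / 2) =
      w m R j k * ((R : ℝ) + k + 1) * ((R : ℝ) + k - j + 1 / 2) := by
  unfold w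
  have h1 : (if j = 0 then ((R : ℝ) + 1 + ((k + 1 : ℕ) : ℝ))⁻¹ else
      ∏ i ∈ Finset.Ico 0 (j - 1), (((R : ℝ) - i) + ((k + 1 : ℕ) : ℝ))) * ((R : ℝ) + k - j + 2) =
      (if j = 0 then ((R : ℝ) + 1 + k)⁻¹ else ∏ i ∈ Finset.Ico 0 (j - 1), (((R : ℝ) - i) + k)) *
        ((R : ℝ) + k + 1) := by
    split_ifs with h
    · subst h
      have h1 : ((R : ℝ) + 1 + k) ≠ 0 := by positivity
      have h2 : ((R : ℝ) + 1 + (k + 1)) ≠ 0 := by positivity
      push_cast
      field_simp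
      ring
    · have h3 := prod_shift ((R : ℝ) + k) 0 (j - 1) (by omega)
      have e1 : ∏ i ∈ Finset.Ico 0 (j - 1), (((R : ℝ) - i) + ((k + 1 : ℕ) : ℝ)) =
          ∏ i ∈ Finset.Ico 0 (j - 1), ((R : ℝ) + k + 1 - i) :=
        Finset.prod_congr rfl fun i _ => by push_cast; ring
      have e2 : ∏ i ∈ Finset.Ico 0 (j - 1), (((R : ℝ) - i) + k) =
          ∏ i ∈ Finset.Ico 0 (j - 1), ((R : ℝ) + k - i) :=
        Finset.prod_congr rfl fun i _ => by ring
      rw [e1, e2]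
      have e3 : ((j - 1 : ℕ) : ℝ) = (j : ℝ) - 1 := by
        rw [Nat.cast_sub (by omega)]; simp
      rw [e3] at h3
      push_cast at h3
      linear_combination h3
  have h2 : (∏ i ∈ Finset.Ico j m, (((R : ℝ) - i - 1 / 2) + ((k + 1 : ℕ) : ℝ))) *
      ((R : ℝ) + k - m + 1 / 2) =
      (∏ i ∈ Finset.Ico j m, (((R : ℝ) - i - 1 / 2) + k)) * ((R : ℝ) + k - j + 1 / 2) := by
    have h3 := prod_shift ((R : ℝ) + k - 1 / 2) j m hj
    have e1 : ∏ i ∈ Finset.Ico j m, (((R : ℝ) - i - 1 / 2) + ((k + 1 : ℕ) : ℝ)) =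
        ∏ i ∈ Finset.Ico j m, ((R : ℝ) + k - 1 / 2 + 1 - i) :=
      Finset.prod_congr rfl fun i _ => by push_cast; ring
    have e2 : ∏ i ∈ Finset.Ico j m, (((R : ℝ) - i - 1 / 2) + k) =
        ∏ i ∈ Finset.Ico j m, ((R : ℝ) + k - 1 / 2 - i) :=
      Finset.prod_congr rfl fun i _ => by ring
    rw [e1, e2]
    linear_combination h3
  set A1 := (if j = 0 then ((R : ℝ) + 1 + ((k + 1 : ℕ) : ℝ))⁻¹ else
      ∏ i ∈ Finset.Ico 0 (j - 1), (((R : ℝ) - i) + ((k + 1 : ℕ) : ℝ)))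
  set A0 := (if j = 0 then ((R : ℝ) + 1 + k)⁻¹ else
      ∏ i ∈ Finset.Ico 0 (j - 1), (((R : ℝ) - i) + k))
  set B1 := (∏ i ∈ Finset.Ico j m, (((R : ℝ) - i - 1 / 2) + ((k + 1 : ℕ) : ℝ)))
  set B0 := (∏ i ∈ Finset.Ico j m, (((R : ℝ) - i - 1 / 2) + k))
  linear_combination B1 * ((R : ℝ) + k - m + 1 / 2) * h1 + A0 * ((R : ℝ) + k + 1) * h2

theorem acoef_eq (m R j : ℕ) (hR : R = m ∨ R = m + 1) (hj : j ≤ m) :
    ∃ κ : ℝ, ∀ k ≤ m, acoef m R j k = κ * ((m.choose k : ℝ) * w m R j k) := by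
  have hRm : m ≤ R := by omega
  refine ⟨acoef m R j 0 / w m R j 0, ?_⟩
  intro k
  induction k with
  | zero =>
    intro _
    have := (w_pos m R j 0 hRm hj).ne'
    simp only [Nat.choose_zero_right, Nat.cast_one, one_mul]
    field_simp
  | succ k ih =>
    intro hk
    have ih' := ih (by omega)
    have h1 := acoef_succ m R j k hR hj (by omega)
    have h2 := w_succ m R j k hj
    have h3 : (m.choose (k + 1) : ℝ) * ((k : ℝ) + 1) = (m.choose k : ℝ) * ((m : ℝ) - k) := by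
      have := Nat.choose_succ_right_eq m k
      have h4 : ((m.choose (k + 1) * (k + 1) : ℕ) : ℝ) = ((m.choose k * (m - k) : ℕ) : ℝ) := by
        rw [this]
      rw [Nat.cast_mul, Nat.cast_mul, Nat.cast_sub (by omega)] at h4
      push_cast at h4
      exact h4
    set κ := acoef m R j 0 / w m R j 0
    have hkR : (0 : ℝ) ≤ k := Nat.cast_nonneg k
    have hjR : (j : ℝ) ≤ R := by exact_mod_cast (by omega : j ≤ R)
    have hmR : (m : ℝ) ≤ R := by exact_mod_cast hRm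
    have d1 : (0 : ℝ) < (R : ℝ) + k - j + 2 := by linarith
    have d2 : (0 : ℝ) < (R : ℝ) + k - m + 1 / 2 := by linarith
    have d3 : (0 : ℝ) < (k : ℝ) + 1 := by linarith
    have hD : ((R : ℝ) + k - j + 2) * (4 * (k + 1) * ((R : ℝ) + k - m + 1 / 2)) ≠ 0 := by positivity
    apply mul_right_cancel₀ hD
    rw [← mul_assoc, h1, ih']
    linear_combination (-4 * κ * (m.choose (k + 1) : ℝ) * ((k : ℝ) + 1)) * h2 -
      4 * κ * w m R j k * ((R : ℝ) + k + 1) * ((R : ℝ) + k - j + 1 / 2) * h3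

theorem g_eval (n j : ℕ) (hj : j ≤ n / 2) (z : ℂ) (hz : z ≠ 1) :
    aeval z (g n j) = (z - 1) ^ (n / 2) *
      aeval (1 / (1 - z)) (∑ k ∈ Finset.range (n / 2 + 1),
        C ((-1) ^ k * acoef (n / 2) (n - n / 2) j k) * X ^ k : ℝ[X]) := by
  have hmin : min (n / 2) (n - j) = n / 2 := by omega
  unfold g
  rw [hmin, map_sum, map_sum, Finset.mul_sum, ← Finset.sum_range_reflect]
  refine Finset.sum_congr rfl fun k hk => ?_
  have hk' : k ≤ n / 2 := by simpa [Nat.lt_succ_iff] using hk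
  have e1 : n / 2 + 1 - 1 - k = n / 2 - k := by omega
  have e2 : n - (n / 2 - k) = n - n / 2 + k := by omega
  rw [e1, e2]
  simp only [map_mul, aeval_C, map_pow, aeval_X, map_sub, map_one]
  have hz1 : z - 1 ≠ 0 := sub_ne_zero.mpr hz
  have hz2 : 1 - z ≠ 0 := sub_ne_zero.mpr (Ne.symm hz)
  have e3 : (z - 1) ^ (n / 2) = (z - 1) ^ (n / 2 - k) * (z - 1) ^ k := by
    rw [← pow_add, Nat.sub_add_cancel hk']
  have e4 : (z - 1) ^ k * (1 / (1 - z)) ^ k = (-1) ^ k := by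
    rw [← mul_pow]
    congr 1
    field_simp
    ring
  have e5 : ((-1 : ℂ)) ^ k * (-1) ^ k = 1 := by
    rw [← mul_pow]; norm_num
  unfold acoef
  rw [e3]
  simp only [map_mul, map_pow, map_neg, map_one]
  have e6 : (z - 1) ^ (n / 2 - k) * (z - 1) ^ k *
      ((-1) ^ k * ((algebraMap ℝ ℂ) (cat (n - n / 2 + k - j)) *
        (algebraMap ℝ ℂ) ((n - n / 2 + k).choose (n / 2 - k) : ℝ)) * (1 / (1 - z)) ^ k) =
      (z - 1) ^ (n / 2 - k) * (-1) ^ k * ((algebraMap ℝ ℂ) (cat (n - n / 2 + k - j)) *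
        (algebraMap ℝ ℂ) ((n - n / 2 + k).choose (n / 2 - k) : ℝ)) *
        ((z - 1) ^ k * (1 / (1 - z)) ^ k) := by ring
  rw [e6, e4]
  linear_combination (-(z - 1) ^ (n / 2 - k) * ((algebraMap ℝ ℂ) (cat (n - n / 2 + k - j)) *
        (algebraMap ℝ ℂ) ((n - n / 2 + k).choose (n / 2 - k) : ℝ))) * e5

theorem g_ne (n j : ℕ) : g n j ≠ 0 := by
  intro h
  have h1 : (g n j).eval 1 = cat (n - j) := by
    unfold g
    rw [eval_finsetSum, Finset.sum_eq_single 0]
    · simp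
    · intro k _ hk
      simp [hk]
    · simp
  rw [h] at h1
  simp only [eval_zero] at h1
  exact (cat_pos (n - j)).ne h1

theorem g_RR_of (n j : ℕ) (hj : j ≤ n / 2)
    (h : RR (Fw (n / 2) (w (n / 2) (n - n / 2) j))) : RR (g n j) := by
  obtain ⟨κ, hκ⟩ := acoef_eq (n / 2) (n - n / 2) j (by omega) hj
  have h1 : (∑ k ∈ Finset.range (n / 2 + 1),
        C ((-1) ^ k * acoef (n / 2) (n - n / 2) j k) * X ^ k : ℝ[X]) =
      C κ * Fw (n / 2) (w (n / 2) (n - n / 2) j) := by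
    unfold Fw
    rw [Finset.mul_sum]
    refine Finset.sum_congr rfl fun k hk => ?_
    have hk' : k ≤ n / 2 := by simpa [Nat.lt_succ_iff] using hk
    rw [hκ k hk', ← mul_assoc (C κ), ← C_mul]
    congr 2
    ring
  have hκ0 : κ ≠ 0 := by
    intro h0
    have := hκ 0 (by omega)
    rw [h0, zero_mul] at this
    unfold acoef at this
    have h2 := cat_pos (n - n / 2 + 0 - j)
    have h3 : 0 < (n - n / 2 + 0).choose (n / 2 - 0) := Nat.choose_pos (by omega)
    have h4 : (0 : ℝ) < ((n - n / 2 + 0).choose (n / 2 - 0) : ℝ) := by exact_mod_cast h3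
    have := mul_pos h2 h4
    linarith
  intro z hz
  by_cases hz1 : z = 1
  · rw [hz1]; simp
  · rw [g_eval n j hj z hz1, h1] at hz
    have hz2 : 1 - z ≠ 0 := sub_ne_zero.mpr (Ne.symm hz1)
    have hz3 : (z - 1) ^ (n / 2) ≠ 0 := pow_ne_zero _ (sub_ne_zero.mpr hz1)
    have h5 := (mul_eq_zero.mp hz).resolve_left hz3
    rw [map_mul, aeval_C] at h5
    have h6 : (algebraMap ℝ ℂ) κ ≠ 0 := by
      simpa using hκ0
    have h7 := h _ ((mul_eq_zero.mp h5).resolve_left h6)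
    have h8 : (1 / (1 - z)).im = z.im / Complex.normSq (1 - z) := by
      rw [one_div, Complex.inv_im]
      simp
    rw [h8, div_eq_zero_iff] at h7
    rcases h7 with h7 | h7
    · exact h7
    · exact absurd (Complex.normSq_eq_zero.mp h7) hz2

theorem w_eq_prod (m R j k : ℕ) (hj : j ≠ 0) : w m R j k =
    ∏ i ∈ (Finset.Ico 0 (j - 1)).disjSum (Finset.Ico j m),
      (Sum.elim (fun i : ℕ => (R : ℝ) - i) (fun i : ℕ => (R : ℝ) - i - 1 / 2) i + k) := by
  unfold w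
  rw [if_neg hj, Finset.prod_disjSum]
  simp

theorem g_RR_pos (n j : ℕ) (hj : j ≤ n / 2) (hj0 : j ≠ 0) : RR (g n j) := by
  apply g_RR_of n j hj
  have h : w (n / 2) (n - n / 2) j = fun k : ℕ =>
      ∏ i ∈ (Finset.Ico 0 (j - 1)).disjSum (Finset.Ico j (n / 2)),
      (Sum.elim (fun i : ℕ => ((n - n / 2 : ℕ) : ℝ) - i)
        (fun i : ℕ => ((n - n / 2 : ℕ) : ℝ) - i - 1 / 2) i + k) := by
    funext k
    exact w_eq_prod _ _ _ _ hj0
  rw [h]
  apply RR_Fw_prod
  intro i hi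
  rcases i with i | i
  · simp only [Finset.inl_mem_disjSum, Finset.mem_Ico] at hi
    simp only [Sum.elim_inl]
    have : (i : ℝ) + 1 ≤ ((n - n / 2 : ℕ) : ℝ) := by
      exact_mod_cast (by omega : i + 1 ≤ n - n / 2)
    linarith
  · simp only [Finset.inr_mem_disjSum, Finset.mem_Ico] at hi
    simp only [Sum.elim_inr]
    have : (i : ℝ) + 1 ≤ ((n - n / 2 : ℕ) : ℝ) := by
      exact_mod_cast (by omega : i + 1 ≤ n - n / 2)
    linarith

end Pool.Agent.Q223.Toric
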