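import Mathlib

namespace Pool.Agent.Q223.Toric

open Polynomial

/-- all complex roots are real -/
def RR (p : ℝ[X]) : Prop := ∀ z : ℂ, aeval z p = 0 → z.im = 0

theorem im_div (a : ℝ) (z : ℂ) : (z * (1 / (z - a))).im = -(a * z.im) / Complex.normSq (z - a) := by
  rw [mul_one_div, Complex.div_im]
  simp only [Complex.sub_re, Complex.sub_im, Complex.ofReal_re, Complex.ofReal_im]
  ring

theorem step (p : ℝ[X]) (hp : RR p) (hneg : ∀ x : ℝ, x ≤ 0 → p.eval x ≠ 0) (c : ℝ) (hc : 0 < c) :
    RR (C c * p + X * derivative p) := by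
  intro z hz
  by_contra him
  have hpz : aeval z p ≠ 0 := fun h => him (hp z h)
  set P : ℂ[X] := p.map (algebraMap ℝ ℂ) with hP
  have hPz : P.eval z ≠ 0 := by
    rw [hP, eval_map_algebraMap]; exact hpz
  have hsp : P.Splits := IsAlgClosed.splits P
  have h1 := hsp.eval_derivative_div_eval_of_ne_zero hPz
  have h2 : (c : ℂ) * P.eval z + z * P.derivative.eval z = 0 := by
    have h3 : aeval z (C c * p + X * derivative p) = (c : ℂ) * P.eval z + z * P.derivative.eval z := by
      rw [hP, derivative_map, eval_map_algebraMap, eval_map_algebraMap]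
      simp
    rw [← h3]; exact hz
  have h4 : z * (P.roots.map fun a => 1 / (z - a)).sum = -c := by
    rw [← h1]
    field_simp
    linear_combination h2
  have hroots : ∀ a ∈ P.roots, ∃ r : ℝ, 0 < r ∧ (r : ℂ) = a := by
    intro a ha
    have ha' : aeval a p = 0 := by
      have := (mem_roots'.1 ha).2
      rw [hP, IsRoot, eval_map_algebraMap] at this
      exact this
    have him := hp a ha'
    have hre : (a.re : ℂ) = a := Complex.ext (by simp) (by simp [him])
    refine ⟨a.re, ?_, hre⟩
    by_contra hle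
    push Not at hle
    apply hneg a.re hle
    rw [← hre] at ha'
    have h5 : aeval (a.re : ℂ) p = ((p.eval a.re : ℝ) : ℂ) := by
      have := Polynomial.aeval_algebraMap_apply_eq_algebraMap_eval (A := ℂ) a.re p
      simpa using this
    rw [h5] at ha'
    exact_mod_cast ha'
  have key : ∀ s : Multiset ℂ, (∀ a ∈ s, ∃ r : ℝ, 0 < r ∧ (r : ℂ) = a) →
      (s = 0 ∨ z.im * (z * (s.map fun a => 1 / (z - a)).sum).im < 0) := by
    intro s
    induction s using Multiset.induction_on with
    | empty => intro _; exact Or.inl rfl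
    | cons a s ih =>
      intro hs
      right
      obtain ⟨r, hr, hra⟩ := hs a (Multiset.mem_cons_self a s)
      have hs' : ∀ a ∈ s, ∃ r : ℝ, 0 < r ∧ (r : ℂ) = a :=
        fun b hb => hs b (Multiset.mem_cons_of_mem hb)
      rw [Multiset.map_cons, Multiset.sum_cons, mul_add, Complex.add_im, mul_add]
      have hns : 0 < Complex.normSq (z - r) := by
        rw [Complex.normSq_pos]
        intro h
        apply him
        have := congrArg Complex.im h
        simpa using this
      have h6 : z.im * (z * (1 / (z - a))).im < 0 := by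
        rw [← hra, im_div]
        have h7 : z.im * (-(r * z.im) / Complex.normSq (z - r)) =
            -(r * (z.im * z.im) / Complex.normSq (z - r)) := by ring
        rw [h7]
        have h8 : 0 < z.im * z.im := mul_self_pos.mpr him
        have : 0 < r * (z.im * z.im) / Complex.normSq (z - r) := by positivity
        linarith
      rcases ih hs' with h | h
      · subst h
        simp only [Multiset.map_zero, Multiset.sum_zero, mul_zero, Complex.zero_im, add_zero]
        exact h6
      · linarith
  rcases key P.roots hroots with h | h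
  · rw [h] at h4
    simp only [Multiset.map_zero, Multiset.sum_zero, mul_zero] at h4
    have : (c : ℂ) = 0 := by linear_combination h4
    have : c = 0 := by exact_mod_cast this
    linarith
  · rw [h4] at h
    simp at h

/-- `∑ (-1)^k binom(m,k) w(k) X^k` -/
noncomputable def Fw (m : ℕ) (w : ℕ → ℝ) : ℝ[X] :=
  ∑ k ∈ Finset.range (m + 1), C ((-1) ^ k * (m.choose k : ℝ) * w k) * X ^ k

theorem Fw_neg (m : ℕ) (w : ℕ → ℝ) (hw : ∀ k ≤ m, 0 < w k) (x : ℝ) (hx : x ≤ 0) :
    (Fw m w).eval x ≠ 0 := by
  have h : 0 < (Fw m w).eval x := by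
    unfold Fw
    rw [eval_finsetSum]
    simp only [eval_mul, eval_C, eval_pow, eval_X]
    apply Finset.sum_pos'
    · intro k hk
      have hk' : k ≤ m := by simpa [Nat.lt_succ_iff] using hk
      have h1 : (-1 : ℝ) ^ k * (m.choose k : ℝ) * w k * x ^ k = (m.choose k : ℝ) * w k * (-x) ^ k := by
        rw [neg_pow x k]; ring
      rw [h1]
      have h2 := hw k hk'
      have h3 : 0 ≤ (-x) ^ k := pow_nonneg (by linarith) k
      positivity
    · refine ⟨0, by simp, ?_⟩
      have h2 := hw 0 (by omega)
      simpa using h2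
  exact h.ne'

theorem Fw_mul (m : ℕ) (w : ℕ → ℝ) (c : ℝ) :
    Fw m (fun k => (c + k) * w k) = C c * Fw m w + X * derivative (Fw m w) := by
  unfold Fw
  rw [derivative_sum, Finset.mul_sum, Finset.mul_sum, ← Finset.sum_add_distrib]
  refine Finset.sum_congr rfl fun k _ => ?_
  rw [derivative_C_mul_X_pow]
  rcases k with _ | k
  · simp
  · simp only [Nat.add_sub_cancel]
    rw [show (-1 : ℝ) ^ (k + 1) * (m.choose (k + 1) : ℝ) * ((c + ((k + 1 : ℕ) : ℝ)) * w (k + 1)) =
      c * ((-1 : ℝ) ^ (k + 1) * (m.choose (k + 1) : ℝ) * w (k + 1)) +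
      ((-1 : ℝ) ^ (k + 1) * (m.choose (k + 1) : ℝ) * w (k + 1)) * ((k + 1 : ℕ) : ℝ) by ring]
    rw [C_add, C_mul (a := c), add_mul, pow_succ]
    ring

theorem RR_Fw_one (m : ℕ) : RR (Fw m (fun _ => 1)) := by
  have h : Fw m (fun _ => 1) = (1 - X) ^ m := by
    unfold Fw
    rw [sub_eq_add_neg, add_comm (1 : ℝ[X]), add_pow]
    refine Finset.sum_congr rfl fun k _ => ?_
    rw [neg_pow]
    simp only [mul_one, one_pow, C_mul, C_pow, C_neg, C_1]
    rw [show C ((m.choose k : ℕ) : ℝ) = ((m.choose k : ℕ) : ℝ[X]) by simp]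
    ring
  rw [h]
  intro z hz
  simp only [map_pow, map_sub, map_one, aeval_X] at hz
  by_cases hm : m = 0
  · subst hm
    simp at hz
  · have h2 : 1 - z = 0 := by
      exact (pow_eq_zero_iff hm).1 hz
    have : z = 1 := by linear_combination -h2
    rw [this]; simp

theorem RR_Fw_prod (m : ℕ) {ι : Type*} (s : Finset ι) (c : ι → ℝ) (hc : ∀ i ∈ s, 0 < c i) :
    RR (Fw m (fun k => ∏ i ∈ s, (c i + k))) := by
  classical
  induction s using Finset.induction_on with
  | empty => simpa using RR_Fw_one m
  | insert a s ha ih =>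
    have hs : ∀ i ∈ s, 0 < c i := fun i hi => hc i (Finset.mem_insert_of_mem hi)
    have h1 := ih hs
    have h2 : Fw m (fun k => ∏ i ∈ insert a s, (c i + k)) =
        Fw m (fun k => (c a + k) * ∏ i ∈ s, (c i + k)) := by
      congr 1
      funext k
      rw [Finset.prod_insert ha]
    rw [h2, Fw_mul]
    apply step _ h1 _ _ (hc a (Finset.mem_insert_self a s))
    intro x hx
    apply Fw_neg m _ _ x hx
    intro k _
    apply Finset.prod_pos
    intro i hi
    have := hs i hi
    positivity

end Pool.Agent.Q223.Toric
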