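import Pool.Agent.Q223.Toric.Coef

namespace Pool.Agent.Q223.Toric

open Polynomial

/-- finite differences -/
theorem alt_sum_zero (m : ℕ) (H : ℝ[X]) (hH : H.natDegree < m) (y : ℝ) :
    ∑ k ∈ Finset.range (m + 1), (-1 : ℝ) ^ k * (m.choose k : ℝ) * H.eval (y + k) = 0 := by
  have h := congrFun (Polynomial.fwdDiff_iter_eq_zero_of_degree_lt hH) y
  rw [fwdDiff_iter_eq_sum_shift] at h
  simp only [Pi.zero_apply, nsmul_eq_mul, mul_one, zsmul_eq_mul] at h
  have h2 : ∑ k ∈ Finset.range (m + 1), (-1 : ℝ) ^ k * (m.choose k : ℝ) * H.eval (y + k) =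
      (-1) ^ m * ∑ k ∈ Finset.range (m + 1),
        (((-1 : ℤ) ^ (m - k) * (m.choose k : ℤ) : ℤ) : ℝ) * H.eval (y + k) := by
    rw [Finset.mul_sum]
    refine Finset.sum_congr rfl fun k hk => ?_
    have hk' : k ≤ m := by simpa [Nat.lt_succ_iff] using hk
    have e : (-1 : ℝ) ^ m = (-1) ^ (m - k) * (-1) ^ k := by
      rw [← pow_add, Nat.sub_add_cancel hk']
    have e2 : (-1 : ℝ) ^ (m - k) * (-1) ^ (m - k) = 1 := by
      rw [← mul_pow]; norm_num
    push_cast
    rw [e]
    linear_combination (-(-1 : ℝ) ^ k * (m.choose k : ℝ) * H.eval (y + k)) * e2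
  rw [h2, h, mul_zero]

/-- `∏_{i < m} (t - i - 1/2)` without the factor `i = l` -/
noncomputable def Qm (m l : ℕ) : ℝ[X] := ∏ i ∈ (Finset.range m).erase l, (X - C ((i : ℝ) + 1 / 2))

theorem Qm_natDegree (m l : ℕ) (hl : l < m) : (Qm m l).natDegree = m - 1 := by
  unfold Qm
  rw [natDegree_prod_of_monic _ _ (fun i _ => monic_X_sub_C _),
    Finset.sum_congr rfl (fun i _ => natDegree_X_sub_C _), Finset.sum_const,
    Finset.card_erase_of_mem (Finset.mem_range.mpr hl)]
  simp

/-- the constant of the orthogonality relation -/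
noncomputable def Kc (m R : ℕ) : ℝ :=
  (∏ i ∈ Finset.range m, ((-1 : ℝ) - i - 1 / 2)) *
    ∑ k ∈ Finset.range (m + 1), (-1 : ℝ) ^ k * (m.choose k : ℝ) / ((R : ℝ) + 1 + k)

theorem orth (m R l : ℕ) (hl : l < m) (hR : m ≤ R) :
    ∑ k ∈ Finset.range (m + 1), ((-1 : ℝ) ^ k * (m.choose k : ℝ) * w m R 0 k) /
      (2 * ((R : ℝ) + k - (l + 1)) + 1) = - Kc m R / (2 * ((l : ℝ) + 1) + 1) := by
  obtain ⟨H, hH⟩ : (X - C (-1 : ℝ)) ∣ (Qm m l - C ((Qm m l).eval (-1))) := X_sub_C_dvd_sub_C_eval
  have hHdeg : H.natDegree < m := by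
    by_cases h0 : H = 0
    · rw [h0]; simpa using (by omega : 0 < m)
    · have h1 : ((X - C (-1 : ℝ)) * H).natDegree = 1 + H.natDegree := by
        rw [natDegree_mul (X_sub_C_ne_zero _) h0, natDegree_X_sub_C]
      have h2 : (Qm m l - C ((Qm m l).eval (-1))).natDegree ≤ m - 1 := by
        refine (natDegree_sub_le _ _).trans ?_
        rw [Qm_natDegree m l hl, natDegree_C]
        simp
      rw [hH, h1] at h2
      omega
  have hsum := alt_sum_zero m H hHdeg (R : ℝ)
  have hQ : (Qm m l).eval (-1) * ((-1 : ℝ) - l - 1 / 2) =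
      ∏ i ∈ Finset.range m, ((-1 : ℝ) - i - 1 / 2) := by
    unfold Qm
    rw [eval_prod, ← Finset.prod_erase_mul _ _ (Finset.mem_range.mpr hl)]
    congr 1
    refine Finset.prod_congr rfl fun i _ => ?_
    simp
    ring
  have hterm : ∀ k ∈ Finset.range (m + 1), ((-1 : ℝ) ^ k * (m.choose k : ℝ) * w m R 0 k) /
      (2 * ((R : ℝ) + k - (l + 1)) + 1) = (1 / 2) * ((-1 : ℝ) ^ k * (m.choose k : ℝ) * H.eval ((R : ℝ) + k)) +
        (1 / 2) * (Qm m l).eval (-1) * ((-1 : ℝ) ^ k * (m.choose k : ℝ) / ((R : ℝ) + 1 + k)) := by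
    intro k _
    have hk0 : (0 : ℝ) ≤ k := Nat.cast_nonneg k
    have hlR : (l : ℝ) + 1 ≤ R := by exact_mod_cast (by omega : l + 1 ≤ R)
    have h1 : w m R 0 k = ((R : ℝ) + 1 + k)⁻¹ * ((Qm m l).eval ((R : ℝ) + k) *
        ((R : ℝ) + k - l - 1 / 2)) := by
      unfold w
      rw [if_pos rfl]
      congr 1
      unfold Qm
      rw [eval_prod, Finset.range_eq_Ico, ← Finset.prod_erase_mul (Finset.Ico 0 m) _
        (Finset.mem_Ico.mpr ⟨by omega, hl⟩)]
      congr 1
      · refine Finset.prod_congr rfl fun i _ => ?_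
        simp
        ring
      · ring
    have h2 : (Qm m l).eval ((R : ℝ) + k) = (Qm m l).eval (-1) + ((R : ℝ) + k + 1) * H.eval ((R : ℝ) + k) := by
      have := congrArg (fun p => p.eval ((R : ℝ) + k)) hH
      simp only [eval_sub, eval_C, eval_mul, eval_X] at this
      linear_combination this
    rw [h1, h2]
    have d1 : ((R : ℝ) + 1 + k) ≠ 0 := by positivity
    have d2 : (2 * ((R : ℝ) + k - (l + 1)) + 1) ≠ 0 := by
      have : 0 < 2 * ((R : ℝ) + k - (l + 1)) + 1 := by linarith
      exact this.ne'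
    field_simp
    ring
  rw [Finset.sum_congr rfl hterm, Finset.sum_add_distrib, ← Finset.mul_sum, ← Finset.mul_sum, hsum]
  unfold Kc
  rw [← hQ]
  have d3 : (2 * ((l : ℝ) + 1) + 1) ≠ 0 := by positivity
  field_simp
  ring

/-- the functional `V ↦ ∑ v_i / (2 (r - i) + 1)` -/
noncomputable def Lam (r : ℕ) (V : ℝ[X]) : ℝ :=
  ∑ i ∈ Finset.range r, V.coeff i / (2 * ((r : ℝ) - i) + 1)

theorem Lam_add (r : ℕ) (V W : ℝ[X]) : Lam r (V + W) = Lam r V + Lam r W := by
  unfold Lam
  rw [← Finset.sum_add_distrib]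
  refine Finset.sum_congr rfl fun i _ => ?_
  rw [coeff_add]; ring

theorem Lam_C_mul (r : ℕ) (c : ℝ) (V : ℝ[X]) : Lam r (C c * V) = c * Lam r V := by
  unfold Lam
  rw [Finset.mul_sum]
  refine Finset.sum_congr rfl fun i _ => ?_
  rw [coeff_C_mul]; ring

theorem integral_even (a : ℕ) : ∫ s in (0 : ℝ)..1, s ^ (2 * a) = 1 / (2 * (a : ℝ) + 1) := by
  rw [integral_pow]
  push_cast
  simp

theorem Lam_eq_integral (r : ℕ) (V : ℝ[X]) :
    Lam r V = ∫ s in (0 : ℝ)..1, ∑ i ∈ Finset.range r, V.coeff i * s ^ (2 * (r - i)) := by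
  rw [intervalIntegral.integral_finsetSum]
  · unfold Lam
    refine Finset.sum_congr rfl fun i hi => ?_
    rw [Finset.mem_range] at hi
    rw [intervalIntegral.integral_const_mul, integral_even, Nat.cast_sub hi.le]
    ring
  · intro i _
    exact (Continuous.intervalIntegrable (by fun_prop) _ _)

theorem Lam_pos (r : ℕ) (V : ℝ[X]) (hV : V.natDegree < r) (hpos : ∀ y : ℝ, 1 < y → 0 < V.eval y) :
    0 < Lam r V := by
  rw [Lam_eq_integral]
  apply intervalIntegral.intervalIntegral_pos_of_pos_on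
  · exact Continuous.intervalIntegrable (by fun_prop) _ _
  · intro s hs
    have hs0 : s ≠ 0 := hs.1.ne'
    have h1 : ∑ i ∈ Finset.range r, V.coeff i * s ^ (2 * (r - i)) =
        s ^ (2 * r) * V.eval (1 / s ^ 2) := by
      conv_rhs => rw [V.as_sum_range_C_mul_X_pow' hV]
      rw [eval_finsetSum, Finset.mul_sum]
      refine Finset.sum_congr rfl fun i hi => ?_
      rw [Finset.mem_range] at hi
      simp only [eval_mul, eval_C, eval_pow, eval_X]
      have : s ^ (2 * r) = s ^ (2 * (r - i)) * (s ^ 2) ^ i := by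
        rw [← pow_mul, ← pow_add]
        congr 1
        omega
      have h5 : (s ^ 2) ^ i * (1 / s ^ 2) ^ i = 1 := by
        rw [← mul_pow, mul_one_div_cancel (pow_ne_zero 2 hs0), one_pow]
      rw [this]
      linear_combination (-V.coeff i * s ^ (2 * (r - i))) * h5
    rw [h1]
    have h2 : 0 < s ^ (2 * r) := pow_pos hs.1 _
    have h3 : 1 < 1 / s ^ 2 := by
      rw [lt_div_iff₀ (by have := hs.1; positivity)]
      have := hs.1
      have := hs.2
      nlinarith
    exact mul_pos h2 (hpos _ h3)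
  · norm_num

theorem moment (m R r : ℕ) (hr : r ≤ m) (hR : m ≤ R) (V : ℝ[X]) (hV : V.natDegree < r) :
    ∫ s in (0 : ℝ)..1, (Fw m (w m R 0)).eval (s ^ 2) * (s ^ (2 * (R - r)) * V.eval (s ^ 2)) =
      - Kc m R * Lam r V := by
  have h1 : ∀ s : ℝ, (Fw m (w m R 0)).eval (s ^ 2) * (s ^ (2 * (R - r)) * V.eval (s ^ 2)) =
      ∑ i ∈ Finset.range r, ∑ k ∈ Finset.range (m + 1),
        (V.coeff i * ((-1 : ℝ) ^ k * (m.choose k : ℝ) * w m R 0 k)) * s ^ (2 * (R - r + i + k)) := by
    intro s
    conv_lhs => rw [V.as_sum_range_C_mul_X_pow' hV]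
    unfold Fw
    rw [eval_finsetSum, eval_finsetSum, Finset.mul_sum, Finset.mul_sum]
    refine Finset.sum_congr rfl fun i _ => ?_
    rw [Finset.sum_mul]
    refine Finset.sum_congr rfl fun k _ => ?_
    simp only [eval_mul, eval_C, eval_pow, eval_X]
    rw [show 2 * (R - r + i + k) = 2 * (R - r) + 2 * i + 2 * k by ring, pow_add, pow_add,
      ← pow_mul, ← pow_mul]
    ring
  simp only [h1]
  rw [intervalIntegral.integral_finsetSum]
  · unfold Lam
    rw [Finset.mul_sum]
    refine Finset.sum_congr rfl fun i hi => ?_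
    rw [Finset.mem_range] at hi
    rw [intervalIntegral.integral_finsetSum]
    · have h2 : ∀ k ∈ Finset.range (m + 1),
          ∫ s in (0 : ℝ)..1, (V.coeff i * ((-1 : ℝ) ^ k * (m.choose k : ℝ) * w m R 0 k)) *
            s ^ (2 * (R - r + i + k)) =
          V.coeff i * (((-1 : ℝ) ^ k * (m.choose k : ℝ) * w m R 0 k) /
            (2 * ((R : ℝ) + k - (((r - i - 1 : ℕ) : ℝ) + 1)) + 1)) := by
        intro k _
        rw [intervalIntegral.integral_const_mul, integral_even]
        have e1 : ((R - r + i + k : ℕ) : ℝ) = (R : ℝ) - r + i + k := by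
          rw [Nat.cast_add, Nat.cast_add, Nat.cast_sub (by omega)]
        have e2 : (((r - i - 1 : ℕ) : ℝ) + 1) = (r : ℝ) - i := by
          rw [Nat.cast_sub (by omega), Nat.cast_sub hi.le]; push_cast; ring
        rw [e1, e2]
        have e3 : 2 * ((R : ℝ) - r + i + k) + 1 = 2 * ((R : ℝ) + k - (r - i)) + 1 := by ring
        rw [e3]
        ring
      rw [Finset.sum_congr rfl h2, ← Finset.mul_sum, orth m R (r - i - 1) (by omega) hR]
      have e2 : (((r - i - 1 : ℕ) : ℝ) + 1) = (r : ℝ) - i := by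
        rw [Nat.cast_sub (by omega), Nat.cast_sub hi.le]; push_cast; ring
      rw [e2]
      ring
    · intro k _
      exact Continuous.intervalIntegrable (by fun_prop) _ _
  · intro i _
    exact Continuous.intervalIntegrable (by fun_prop) _ _

theorem factor (f : ℝ[X]) (hf : f ≠ 0) : ∃ (s : Multiset ℝ) (u : ℝ[X]),
    (∀ η ∈ s, 0 < η ∧ η < 1) ∧ f = (s.map fun η => X - C η).prod * u ∧
      ∀ x : ℝ, 0 < x → x < 1 → u.eval x ≠ 0 := by
  induction hd : f.natDegree using Nat.strong_induction_on generalizing f with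
  | _ d ih =>
    by_cases h : ∃ x : ℝ, 0 < x ∧ x < 1 ∧ f.eval x = 0
    · obtain ⟨x, hx0, hx1, hx⟩ := h
      obtain ⟨q, hq⟩ := dvd_iff_isRoot.mpr hx
      have hq0 : q ≠ 0 := by
        rintro rfl
        rw [mul_zero] at hq
        exact hf hq
      have hdeg : q.natDegree < d := by
        rw [← hd, hq, natDegree_mul (X_sub_C_ne_zero _) hq0, natDegree_X_sub_C]
        omega
      obtain ⟨s, u, hs, hu, hne⟩ := ih _ hdeg q hq0 rfl
      refine ⟨x ::ₘ s, u, ?_, ?_, hne⟩
      · intro η hη
        rcases Multiset.mem_cons.mp hη with rfl | h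
        · exact ⟨hx0, hx1⟩
        · exact hs η h
      · rw [Multiset.map_cons, Multiset.prod_cons, hq, hu]
        ring
    · push Not at h
      exact ⟨0, f, by simp, by simp, fun x hx0 hx1 => h x hx0 hx1⟩

theorem prod_eval_pos (s : Multiset ℝ) (hs : ∀ η ∈ s, 0 < η ∧ η < 1) (y : ℝ) (hy : 1 < y) :
    0 < ((s.map fun η => X - C η).prod : ℝ[X]).eval y := by
  induction s using Multiset.induction_on with
  | empty => simp
  | cons a s ih =>
    rw [Multiset.map_cons, Multiset.prod_cons, eval_mul]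
    have h1 := ih (fun η hη => hs η (Multiset.mem_cons_of_mem hη))
    have h2 := hs a (Multiset.mem_cons_self a s)
    simp only [eval_sub, eval_X, eval_C]
    exact mul_pos (by linarith) h1

theorem RR_zero (m R : ℕ) (hR : m ≤ R) : RR (Fw m (w m R 0)) := by
  set f := Fw m (w m R 0) with hf
  have hf0 : f ≠ 0 := by
    intro h
    apply Fw_neg m (w m R 0) (fun k _ => w_pos m R 0 k hR (by omega)) 0 le_rfl
    rw [← hf, h, eval_zero]
  have hfdeg : f.natDegree ≤ m := by
    rw [hf]
    unfold Fw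
    apply natDegree_sum_le_of_forall_le
    intro k hk
    refine (natDegree_C_mul_X_pow_le _ _).trans ?_
    simpa [Nat.lt_succ_iff] using hk
  obtain ⟨s, u, hs, hfu, hu⟩ := factor f hf0
  set W : ℝ[X] := (s.map fun η => X - C η).prod with hW
  have hWdeg : W.natDegree = s.card := by
    rw [hW, natDegree_multiset_prod_X_sub_C_eq_card]
  have hW0 : W ≠ 0 := by
    rintro h; rw [h, zero_mul] at hfu; exact hf0 hfu
  have hu0 : u ≠ 0 := by
    rintro h; rw [h, mul_zero] at hfu; exact hf0 hfu
  have hdeg : s.card + u.natDegree ≤ m := by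
    rw [hfu, natDegree_mul hW0 hu0, hWdeg] at hfdeg
    exact hfdeg
  have hmain : ¬ s.card + 2 ≤ m := by
    intro hcard
    set r := s.card + 2 with hr
    have hL0 : 0 < Lam r W := by
      apply Lam_pos
      · rw [hWdeg]; omega
      · intro y hy
        exact prod_eval_pos s hs y hy
    have hL1 : 0 < Lam r ((X - C 1) * W) := by
      apply Lam_pos
      · rw [natDegree_mul (X_sub_C_ne_zero _) hW0, hWdeg, natDegree_X_sub_C]; omega
      · intro y hy
        rw [eval_mul]
        have := prod_eval_pos s hs y hy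
        simp only [eval_sub, eval_X, eval_C]
        exact mul_pos (by linarith) this
    set c : ℝ := 1 + Lam r ((X - C 1) * W) / Lam r W with hc
    have hc1 : 1 < c := by
      have : 0 < Lam r ((X - C 1) * W) / Lam r W := by positivity
      linarith
    have hLV : Lam r ((X - C c) * W) = 0 := by
      have e : (X - C c) * W = (X - C 1) * W + C (-(Lam r ((X - C 1) * W) / Lam r W)) * W := by
        rw [hc, C_neg, C_add]
        ring
      rw [e, Lam_add, Lam_C_mul]
      have := hL0.ne'
      field_simp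
      ring
    have hVdeg : ((X - C c) * W).natDegree < r := by
      rw [natDegree_mul (X_sub_C_ne_zero _) hW0, hWdeg, natDegree_X_sub_C]; omega
    have hmom := moment m R r hcard hR ((X - C c) * W) hVdeg
    rw [hLV, mul_zero, ← hf] at hmom
    -- sign of `u` on `(0, 1)`
    have hsign : ∀ x : ℝ, 0 < x → x < 1 → 0 < u.eval (1 / 2) * u.eval x := by
      intro x hx0 hx1
      by_contra hneg
      push Not at hneg
      have h2 := hu (1 / 2) (by norm_num) (by norm_num)
      have h3 := hu x hx0 hx1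
      have h4 : u.eval (1 / 2) * u.eval x < 0 :=
        lt_of_le_of_ne hneg (mul_ne_zero h2 h3)
      have hcont : ContinuousOn (fun y => u.eval y) (Set.uIcc (1 / 2) x) :=
        u.continuous.continuousOn
      have h5 : (0 : ℝ) ∈ Set.uIcc (u.eval (1 / 2)) (u.eval x) := by
        rw [Set.mem_uIcc]
        rcases mul_neg_iff.mp h4 with ⟨h6, h7⟩ | ⟨h6, h7⟩
        · right; exact ⟨h7.le, h6.le⟩
        · left; exact ⟨h6.le, h7.le⟩
      obtain ⟨y, hy, hy0⟩ := intermediate_value_uIcc hcont h5
      rw [Set.mem_uIcc] at hy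
      apply hu y _ _ hy0
      · rcases hy with hy | hy
        · linarith [hy.1]
        · linarith [hy.1]
      · rcases hy with hy | hy
        · linarith [hy.2]
        · linarith [hy.2]
    set σ := u.eval (1 / 2) with hσ
    have hpos : 0 < ∫ s in (0 : ℝ)..1, (-σ) * (f.eval (s ^ 2) *
        (s ^ (2 * (R - r)) * ((X - C c) * W).eval (s ^ 2))) := by
      have hform : ∀ x : ℝ, (-σ) * (f.eval (x ^ 2) *
        (x ^ (2 * (R - r)) * ((X - C c) * W).eval (x ^ 2))) =
        (σ * u.eval (x ^ 2)) * (W.eval (x ^ 2)) ^ 2 * (x ^ (R - r)) ^ 2 * (c - x ^ 2) := by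
        intro x
        rw [hfu, eval_mul, eval_mul, eval_sub, eval_X, eval_C, pow_mul]
        rw [show (x ^ 2) ^ (R - r) = (x ^ (R - r)) ^ 2 by rw [← pow_mul, ← pow_mul, mul_comm]]
        ring
      have hcontF : Continuous (fun x : ℝ => (-σ) * (f.eval (x ^ 2) *
        (x ^ (2 * (R - r)) * ((X - C c) * W).eval (x ^ 2)))) := by fun_prop
      -- nonnegativity on (0,1)
      have hnn : ∀ x : ℝ, 0 < x → x < 1 → 0 ≤ (-σ) * (f.eval (x ^ 2) *
        (x ^ (2 * (R - r)) * ((X - C c) * W).eval (x ^ 2))) := by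
        intro x hx0 hx1
        rw [hform x]
        have h1 : x ^ 2 < 1 := by nlinarith
        have h2 := hsign (x ^ 2) (by positivity) h1
        have h3 : 0 < c - x ^ 2 := by linarith
        positivity
      apply intervalIntegral.integral_pos (by norm_num) hcontF.continuousOn
      · intro x hx
        rcases eq_or_lt_of_le hx.2 with h1 | h1
        · -- x = 1 by continuity
          subst h1
          have hcl : (1 : ℝ) ∈ closure (Set.Ioo (0 : ℝ) 1) := by
            rw [closure_Ioo (by norm_num)]; exact ⟨by norm_num, le_rfl⟩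
          have hclosed : IsClosed {x : ℝ | 0 ≤ (-σ) * (f.eval (x ^ 2) *
              (x ^ (2 * (R - r)) * ((X - C c) * W).eval (x ^ 2)))} :=
            isClosed_le continuous_const hcontF
          exact (closure_minimal (fun x hx => hnn x hx.1 hx.2) hclosed) hcl
        · exact hnn x hx.1 h1
      · -- a point where the integrand is positive
        have hinf : (Set.Ioo (0 : ℝ) 1).Infinite := Set.Ioo_infinite (by norm_num)
        obtain ⟨x, hx, hxW⟩ : ∃ x ∈ Set.Ioo (0 : ℝ) 1, (W.comp (X ^ 2)).eval x ≠ 0 := by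
          by_contra hcon
          push Not at hcon
          have hW2 : W.comp (X ^ 2) ≠ 0 := by
            intro h0
            have h1 := congrArg (fun p : ℝ[X] => p.eval (2 : ℝ)) h0
            simp only [eval_comp, eval_pow, eval_X, eval_zero] at h1
            have := prod_eval_pos s hs (2 ^ 2) (by norm_num)
            rw [← hW, h1] at this
            exact lt_irrefl _ this
          apply hinf
          apply Set.Finite.subset (W.comp (X ^ 2)).roots.toFinset.finite_toSet
          intro x hx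
          simp only [Finset.mem_coe, Multiset.mem_toFinset]
          exact (mem_roots hW2).mpr (hcon x hx)
        refine ⟨x, ⟨hx.1.le, hx.2.le⟩, ?_⟩
        rw [hform x]
        simp only [eval_comp, eval_pow, eval_X] at hxW
        have h1 : x ^ 2 < 1 := by nlinarith [hx.1, hx.2]
        have h2 := hsign (x ^ 2) (by have := hx.1; positivity) h1
        have h3 : 0 < c - x ^ 2 := by linarith
        have h4 : 0 < x := hx.1
        positivity
    rw [intervalIntegral.integral_const_mul, hmom, mul_zero] at hpos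
    exact lt_irrefl _ hpos
  have hu1 : u.natDegree ≤ 1 := by omega
  intro z hz
  rw [hfu, map_mul] at hz
  rcases mul_eq_zero.mp hz with h | h
  · rw [hW, map_multiset_prod, Multiset.prod_eq_zero_iff, Multiset.map_map] at h
    obtain ⟨η, _, hη⟩ := Multiset.mem_map.mp h
    simp only [Function.comp_apply, map_sub, aeval_X, aeval_C] at hη
    have : z = (algebraMap ℝ ℂ) η := by linear_combination hη
    rw [this]
    simp
  · obtain ⟨a, b, hab⟩ := exists_eq_X_add_C_of_natDegree_le_one hu1
    rw [hab] at h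
    simp only [map_add, map_mul, aeval_C, aeval_X] at h
    have him := congrArg Complex.im h
    simp at him
    rcases him with h0 | h0
    · exfalso
      subst h0
      simp at h
      have hb : b = 0 := by exact_mod_cast h
      apply hu0
      rw [hab, hb]; simp
    · exact h0

theorem g_RR (n j : ℕ) (hj : j ≤ n / 2) : RR (g n j) := by
  by_cases h0 : j = 0
  · subst h0
    exact g_RR_of n 0 hj (RR_zero _ _ (by omega))
  · exact g_RR_pos n j hj h0

end Pool.Agent.Q223.Toric
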